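import Pool.Agent.Run7.h601.Rsa.Main

set_option autoImplicit false

/-!
# The variance of the number of `r`-mers in one-dimensional random sequential adsorption

The limit of `Var (C_n) / n` for the random sequential adsorption of `r`-mers on the sites
`1, …, n`, for every `r`, as an explicit expression in integrals of
`ε_r (t) = exp (-2 ∑_{k=1}^{r-1} (1 - t ^ k) / k)`.
-/

namespace Pool.Agent.Results.MP_669328_pr.VarianceFormula

open Finset Filter Topology

/-- the blocks of `r` consecutive uncovered sites (given by their first site), `U` being the set of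
uncovered sites -/
def blocks (r : ℕ) (U : Finset ℕ) : Finset ℕ := U.filter fun i => Ico i (i + r) ⊆ U

/-- `E U φ` is the expected value of `φ N`, where `N` is the number of `r`-mers that random
sequential adsorption places if it starts with the set `U` of uncovered sites: nothing is placed if
no block is uncovered, otherwise the next `r`-mer covers a block which is uniform among the
uncovered blocks. -/
structure IsRSA (r : ℕ) (E : Finset ℕ → (ℕ → ℝ) → ℝ) : Prop where
  jammed : ∀ U φ, blocks r U = ∅ → E U φ = φ 0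
  place : ∀ U φ, (blocks r U).Nonempty →
    E U φ = (∑ i ∈ blocks r U, E (U \ Ico i (i + r)) fun k => φ (k + 1)) / ((blocks r U).card : ℝ)

/-- the mean of the number `C_n` of `r`-mers on the sites `1, …, n` -/
noncomputable def mean (E : Finset ℕ → (ℕ → ℝ) → ℝ) (n : ℕ) : ℝ := E (Icc 1 n) fun k => (k : ℝ)

/-- the variance of `C_n` -/
noncomputable def variance (E : Finset ℕ → (ℕ → ℝ) → ℝ) (n : ℕ) : ℝ :=
  E (Icc 1 n) fun k => ((k : ℝ) - mean E n) ^ 2

/-- `ε_r (t) = exp (-2 ∑_{k=1}^{r-1} (1 - t ^ k) / k)` -/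
noncomputable def eps (r : ℕ) (t : ℝ) : ℝ :=
  Real.exp (-2 * ∑ k ∈ range (r - 1), (1 - t ^ (k + 1)) / ((k : ℝ) + 1))

/-- `Φ_r (t) = ∫_0^t ε_r (u) du` -/
noncomputable def Phi (r : ℕ) (t : ℝ) : ℝ := ∫ u in (0 : ℝ)..t, eps r u

/-- `λ_r = ∫_0^1 ε_r (u) du`, so that `μ (r) = 1 - r λ_r` -/
noncomputable def lam (r : ℕ) : ℝ := ∫ u in (0 : ℝ)..1, eps r u

/-- the limiting variance per site -/
noncomputable def v (r : ℕ) : ℝ :=
  2 * (∫ t in (0 : ℝ)..1, (t ^ (r - 1) * Phi r t -
      eps r t * (lam r * t - (1 - lam r * r) * (1 - t))) ^ 2 / ((1 - t) ^ 2 * eps r t)) +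
    2 * ∑ i ∈ range r, (1 - lam r * (i + r)) ^ 2 * ∫ t in (0 : ℝ)..1, (1 - t) * t ^ i * eps r t

theorem isRSA_expect {r : ℕ} (hr : 0 < r) : IsRSA r (Pool.Agent.Run7.h601.Rsa.expect r) := by
  refine ⟨fun U φ h => Pool.Agent.Run7.h601.Rsa.expect_of_empty h φ, fun U φ h => ?_⟩
  rw [eq_div_iff (by exact_mod_cast h.card_pos.ne'), mul_comm]
  exact Pool.Agent.Run7.h601.Rsa.card_mul_expect hr U φ

theorem unique_of_isRSA {r : ℕ} (hr : 0 < r) {E : Finset ℕ → (ℕ → ℝ) → ℝ} (hE : IsRSA r E) :
    E = Pool.Agent.Run7.h601.Rsa.expect r := by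
  funext U
  induction U using Pool.Agent.Run7.h601.Rsa.expect_induct hr with
  | h U ih =>
    funext φ
    rcases (blocks r U).eq_empty_or_nonempty with h | h
    · rw [hE.jammed U φ h, (isRSA_expect hr).jammed U φ h]
    · rw [hE.place U φ h, (isRSA_expect hr).place U φ h]
      congr 1
      exact sum_congr rfl fun i hi => congrFun (ih i hi) _

/-- For every `r ≥ 1`: the law of the number of `r`-mers is well defined by the rule of the
process, its mean on `n` sites is `λ_r (n + r) - 1` up to an exponentially small error, and its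
variance divided by `n` tends to `v r`. -/
theorem result (r : ℕ) (hr : 1 ≤ r) :
    (∃! E, IsRSA r E) ∧
    ∀ E, IsRSA r E →
      (∃ C : ℝ, ∀ n, |mean E n - (lam r * (n + r) - 1)| ≤ C * (1 / 4 : ℝ) ^ n) ∧
      Tendsto (fun n : ℕ => variance E n / n) atTop (𝓝 (v r)) := by
  refine ⟨⟨_, isRSA_expect hr, fun E hE => unique_of_isRSA hr hE⟩, fun E hE => ?_⟩
  obtain rfl := unique_of_isRSA hr hE
  obtain ⟨C, -, hC⟩ := Pool.Agent.Run7.h601.Rsa.mean_limit (r := r) hr
  exact ⟨⟨C, hC⟩, Pool.Agent.Run7.h601.Rsa.variance_limit hr⟩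

end Pool.Agent.Results.MP_669328_pr.VarianceFormula
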